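import Pool.Agent.W_4481e3_q87.GoR
import Pool.Agent.W_4481e3_tab.T2

/-!
Tree s03o2, data 3.
-/

namespace Pool.Agent.W_4481e3_rt.s03o2

open Pool.Agent.W_4481e3_q25.EvR

theorem k61 : ckO Pool.Agent.W_4481e3_tab.T2.tab 10848 12432 268435456 65536 92733 131072 17 524288 524288 3670016 524288 518940262 525950333 3910507 3748319 268407440 268447987 16777216 16777216 132383 132383 0x101001c0300ec101001c01001c99282fab7a3557120300ac99912183a007b1a87991999212999219309993299990803ac29312000007949923152121203000c0300ec203000c04007c2103001c992842387af2d705007c1204007c05007c2199939493205007c05007c07007c205007c12199290701dc219400701dc0701dc0701dc120701dc0701dc28518c7adef7194065207007c0701dc0701dc1205007c0701dc210701dc0701dc0701dc12999129340701dc0701dc0701dc120701dc0901dc0901dc1241284eaf7ad1771099290701dc0701dc19321065903001c143205007c05007c205007c105007c07007c05007c1205007c05007c210701dc0701dc307007c08042c210701dc0901dc40701dc0901dc410901dc943207007c07007c207007c1851637ae7b70701dc0901dc40701dc94309042c09042c09042c12121205007c05007c107007c07007c09042c207007c08039c21205007c08039c07007c1856797b0fe72121852857b0ac721204007c05007c204007c05007c2105007c05007c105007c05007c07007c207007c12853b07b619705007c07007c07000c121205007c05007c105007c07007c205007c07007c21853ba7bdb3721212841507bb5871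 = true := by decide +kernel

theorem k64 : ckO Pool.Agent.W_4481e3_tab.T2.tab 10848 12432 268435456 65536 92733 131072 8 524288 524288 3670016 524288 511768002 529698652 3586130 7172260 268435456 268435456 16777216 16777216 132383 132383 0x100001c00001c01001c281c1b7b0c37100001c00001c01001c00001c901001c212100001c1503bd1401ed21212 = true := by decide +kernel

theorem k66 : ckO Pool.Agent.W_4481e3_tab.T2.tab 10848 12432 268435456 65536 92733 131072 5 524288 524288 3670016 524288 515354132 515354132 7172260 7172260 268435456 268435456 16777216 16777216 132383 132383 0x100001c00001c01001c01001c03000c2121 = true := by decide +kernel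

theorem k69 : ckO Pool.Agent.W_4481e3_tab.T2.tab 10848 12432 268435456 65536 92733 131072 3 524288 524288 3670016 524288 522526392 493837352 14344520 14344520 268435456 268435456 16777216 16777216 132383 132383 0x100001c00001c01001c21 = true := by decide +kernel

theorem k71 : ckO Pool.Agent.W_4481e3_tab.T2.tab 10848 12432 268435456 65536 92733 131072 2 524288 524288 3670016 524288 493837352 508181872 14344520 28689040 268435456 268435456 16777216 16777216 132383 132383 0x100000c00001c2 = true := by decide +kernel

end Pool.Agent.W_4481e3_rt.s03o2
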